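import Mathlib

/-!
# Rational solutions of the functional equation of quantum multiplication

For a set `P` of primes, every rational solution of `f_{mn}(q) = f_m(q) f_n(q ^ m)` with support `S(P)`
is a quotient of two polynomial solutions with support `S(P)` if and only if `P` has at most one
element. For `|P| ≥ 2` the solution `f_n(q) = (q ^ n - 2) / (q - 2)` is not such a quotient: if the
polynomials `h_n` solve the equation and `h_r(2) = 0`, then for every `i` some number
`2 ^ (r ^ j / p ^ i)` is a zero of `h_r`.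
-/

set_option autoImplicit false

namespace Pool.Agent.Results.MP_bcdf42_nt.RationalSolutions

open Polynomial

/-- The multiplicative semigroup (with `1`) generated by `P`. -/
def S (P : Set ℕ) : Set ℕ := (Submonoid.closure P : Submonoid ℕ)

/-- `f_1, f_2, ...` is a sequence of rational functions with complex coefficients, with support `S P`,
and `f_{mn}(q) = f_m(q) f_n(q ^ m)` for all positive `m`, `n`. -/
def RationalSolution (P : Set ℕ) (f : ℕ → RatFunc ℂ) : Prop :=
  (∀ n : ℕ, 0 < n → (f n ≠ 0 ↔ n ∈ S P)) ∧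
  ∀ m n : ℕ, 0 < m → 0 < n →
    f (m * n) = f m * RatFunc.eval RatFunc.C (RatFunc.X ^ m) (f n)

/-- `g_1, g_2, ...` is a sequence of polynomials with complex coefficients, with support `S P`,
and `g_{mn}(q) = g_m(q) g_n(q ^ m)` for all positive `m`, `n`. -/
def PolynomialSolution (P : Set ℕ) (g : ℕ → ℂ[X]) : Prop :=
  (∀ n : ℕ, 0 < n → (g n ≠ 0 ↔ n ∈ S P)) ∧
  ∀ m n : ℕ, 0 < m → 0 < n → g (m * n) = g m * (g n).comp (X ^ m)

theorem mem_S {P : Set ℕ} (hP : ∀ p ∈ P, p.Prime) {n : ℕ} (hn : 0 < n) :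
    n ∈ S P ↔ ∀ p : ℕ, p.Prime → p ∣ n → p ∈ P := by
  constructor
  · intro h
    refine Submonoid.closure_induction (motive := fun x _ => ∀ p : ℕ, p.Prime → p ∣ x → p ∈ P)
      ?_ ?_ ?_ h
    · intro x hx p hp hd
      rwa [(Nat.prime_dvd_prime_iff_eq hp (hP x hx)).1 hd]
    · intro p hp hd
      exact absurd (Nat.dvd_one.1 hd) hp.one_lt.ne'
    · intro x y _ _ hx hy p hp hd
      rcases (hp.dvd_mul).1 hd with h | h
      · exact hx p hp h
      · exact hy p hp h
  · intro h
    rw [← Nat.prod_primeFactorsList hn.ne']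
    refine Submonoid.list_prod_mem _ fun p hp => Submonoid.subset_closure ?_
    have := Nat.prime_of_mem_primeFactorsList hp
    exact h p this (Nat.dvd_of_mem_primeFactorsList hp)

theorem mem_S_mul {P : Set ℕ} (hP : ∀ p ∈ P, p.Prime) {m n : ℕ} (hm : 0 < m) (hn : 0 < n) :
    m * n ∈ S P ↔ m ∈ S P ∧ n ∈ S P := by
  rw [mem_S hP hm, mem_S hP hn, mem_S hP (Nat.mul_pos hm hn)]
  constructor
  · intro h
    exact ⟨fun p hp hd => h p hp (hd.mul_right n), fun p hp hd => h p hp (hd.mul_left m)⟩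
  · rintro ⟨h1, h2⟩ p hp hd
    rcases (hp.dvd_mul).1 hd with h | h
    · exact h1 p hp h
    · exact h2 p hp h

theorem comp_ne_zero {m : ℕ} (hm : 0 < m) {b : ℂ[X]} (hb : b ≠ 0) : b.comp (X ^ m) ≠ 0 := by
  rw [← Polynomial.expand_eq_comp_X_pow]
  exact (Polynomial.expand_ne_zero hm).2 hb

theorem eval₂_eq (m : ℕ) (a : ℂ[X]) :
    a.eval₂ (RatFunc.C : ℂ →+* RatFunc ℂ) (RatFunc.X ^ m) =
      algebraMap ℂ[X] (RatFunc ℂ) (a.comp (X ^ m)) := by
  induction a using Polynomial.induction_on' with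
  | add p q hp hq => rw [Polynomial.eval₂_add, Polynomial.add_comp, map_add, hp, hq]
  | monomial n c =>
    rw [Polynomial.eval₂_monomial, Polynomial.monomial_comp, map_mul, map_pow, map_pow,
      RatFunc.algebraMap_C, RatFunc.algebraMap_X]

/-- Substitution of `q ^ m` in a quotient of polynomials. -/
theorem eval_div {m : ℕ} (hm : 0 < m) (a : ℂ[X]) {b : ℂ[X]} (hb : b ≠ 0) :
    RatFunc.eval RatFunc.C (RatFunc.X ^ m)
        (algebraMap ℂ[X] (RatFunc ℂ) a / algebraMap ℂ[X] (RatFunc ℂ) b) =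
      algebraMap ℂ[X] (RatFunc ℂ) (a.comp (X ^ m)) /
        algebraMap ℂ[X] (RatFunc ℂ) (b.comp (X ^ m)) := by
  obtain ⟨f, hf⟩ : ∃ f, f = algebraMap ℂ[X] (RatFunc ℂ) a / algebraMap ℂ[X] (RatFunc ℂ) b :=
    ⟨_, rfl⟩
  rw [← hf]
  unfold RatFunc.eval
  rw [eval₂_eq, eval₂_eq]
  have hb' : algebraMap ℂ[X] (RatFunc ℂ) b ≠ 0 := RatFunc.algebraMap_ne_zero hb
  have hd : f.denom ≠ 0 := RatFunc.denom_ne_zero f
  have hd' : algebraMap ℂ[X] (RatFunc ℂ) f.denom ≠ 0 := RatFunc.algebraMap_ne_zero hd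
  have h1 : f.num * b = a * f.denom := by
    apply RatFunc.algebraMap_injective ℂ
    rw [map_mul, map_mul]
    have h2 := RatFunc.num_div_denom f
    rw [hf] at h2
    rw [← hf] at h2
    rw [div_eq_iff hd'] at h2
    rw [h2, hf]
    field_simp
  have h3 : f.num.comp (X ^ m) * b.comp (X ^ m) = a.comp (X ^ m) * f.denom.comp (X ^ m) := by
    rw [← Polynomial.mul_comp, h1, Polynomial.mul_comp]
  rw [div_eq_div_iff (RatFunc.algebraMap_ne_zero (comp_ne_zero hm hd))
    (RatFunc.algebraMap_ne_zero (comp_ne_zero hm hb)), ← map_mul, h3, map_mul]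

open Classical in
/-- The sequence `(q ^ n - 2) / (q - 2)`, `n ∈ S P`. -/
noncomputable def bad (P : Set ℕ) (n : ℕ) : RatFunc ℂ :=
  if n ∈ S P then algebraMap ℂ[X] (RatFunc ℂ) (X ^ n - C 2) / algebraMap ℂ[X] (RatFunc ℂ) (X - C 2)
  else 0

theorem pow_sub_ne {n : ℕ} (hn : 0 < n) : (X ^ n - C 2 : ℂ[X]) ≠ 0 :=
  (Polynomial.monic_X_pow_sub_C (2 : ℂ) hn.ne').ne_zero

theorem bad_solution {P : Set ℕ} (hP : ∀ p ∈ P, p.Prime) : RationalSolution P (bad P) := by
  have h1 : (X - C 2 : ℂ[X]) ≠ 0 := Polynomial.X_sub_C_ne_zero 2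
  have h1' := RatFunc.algebraMap_ne_zero h1
  constructor
  · intro n hn
    unfold bad
    split_ifs with h
    · simp only [ne_eq, h, iff_true]
      exact div_ne_zero (RatFunc.algebraMap_ne_zero (pow_sub_ne hn)) h1'
    · simp [h]
  · intro m n hm hn
    unfold bad
    by_cases h : m * n ∈ S P
    · have h2 := (mem_S_mul hP hm hn).1 h
      rw [if_pos h, if_pos h2.1, if_pos h2.2, eval_div hm _ h1]
      have e1 : (X ^ n - C 2 : ℂ[X]).comp (X ^ m) = X ^ (m * n) - C 2 := by
        rw [Polynomial.sub_comp, Polynomial.X_pow_comp, Polynomial.C_comp, ← pow_mul]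
      have e2 : (X - C 2 : ℂ[X]).comp (X ^ m) = X ^ m - C 2 := by
        rw [Polynomial.sub_comp, Polynomial.X_comp, Polynomial.C_comp]
      rw [e1, e2]
      have h3 := RatFunc.algebraMap_ne_zero (pow_sub_ne hm)
      field_simp
    · rw [if_neg h]
      by_cases h2 : m ∈ S P
      · have h3 : n ∉ S P := fun h3 => h ((mem_S_mul hP hm hn).2 ⟨h2, h3⟩)
        rw [if_neg h3, RatFunc.eval_zero, mul_zero]
      · rw [if_neg h2, zero_mul]

/-- Iteration of the functional equation. -/
theorem root_pow {P : Set ℕ} {h : ℕ → ℂ[X]} (hh : PolynomialSolution P h) {r : ℕ} (hr : 0 < r) :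
    ∀ (k : ℕ) (z : ℂ), 0 < k → ((h (r ^ k)).eval z = 0 ↔ ∃ j < k, (h r).eval (z ^ r ^ j) = 0) := by
  intro k z hk
  induction k with
  | zero => exact absurd hk (lt_irrefl _)
  | succ k ih =>
    rcases Nat.eq_zero_or_pos k with rfl | hk0
    · constructor
      · intro h0
        exact ⟨0, by norm_num, by simpa using h0⟩
      · rintro ⟨j, hj, h0⟩
        have : j = 0 := by omega
        subst this
        simpa using h0
    · rw [pow_succ, hh.2 (r ^ k) r (Nat.pow_pos hr) hr, Polynomial.eval_mul, mul_eq_zero,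
        Polynomial.eval_comp, Polynomial.eval_pow, Polynomial.eval_X, ih hk0]
      constructor
      · rintro (⟨j, hj, h0⟩ | h0)
        · exact ⟨j, by omega, h0⟩
        · exact ⟨k, by omega, h0⟩
      · rintro ⟨j, hj, h0⟩
        rcases Nat.lt_succ_iff_lt_or_eq.1 hj with h1 | h1
        · exact Or.inl ⟨j, h1, h0⟩
        · subst h1
          exact Or.inr h0

/-- A polynomial solution whose support contains two primes `p ≠ r` has `h_r(2) ≠ 0`. -/
theorem no_root {P : Set ℕ} {h : ℕ → ℂ[X]} (hh : PolynomialSolution P h) {p r : ℕ}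
    (hp : p.Prime) (hr : r.Prime) (hpr : p ≠ r) (hpS : ∀ i, p ^ i ∈ S P) (hrS : r ∈ S P) :
    (h r).eval (2 : ℂ) ≠ 0 := by
  intro h2
  -- the positive real number `x i = 2 ^ (1 / p ^ i)`
  have hx : ∀ i : ℕ, ∃ x : ℝ, 1 < x ∧ x ^ p ^ i = 2 := by
    intro i
    have hpi : 0 < p ^ i := Nat.pow_pos hp.pos
    refine ⟨(2 : ℝ) ^ ((p ^ i : ℕ) : ℝ)⁻¹, ?_, ?_⟩
    · exact Real.one_lt_rpow (by norm_num) (by positivity)
    · exact Real.rpow_inv_natCast_pow (by norm_num) hpi.ne'
  choose x hx1 hx2 using hx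
  have key : ∀ i : ℕ, ∃ j : ℕ, (h r).eval (((x i ^ r ^ j : ℝ)) : ℂ) = 0 := by
    intro i
    have hpi : 0 < p ^ i := Nat.pow_pos hp.pos
    -- some `k ≥ 1` such that `h (p ^ i)` does not vanish at `x i ^ (r ^ k)`
    have hk : ∃ k : ℕ, 0 < k ∧ (h (p ^ i)).eval (((x i ^ r ^ k : ℝ)) : ℂ) ≠ 0 := by
      by_contra hcon
      push Not at hcon
      have hne : h (p ^ i) ≠ 0 := (hh.1 _ hpi).2 (hpS i)
      refine hne (Polynomial.eq_zero_of_infinite_isRoot _ ?_)
      have hinj : Function.Injective (fun k : ℕ => (((x i ^ r ^ (k + 1) : ℝ)) : ℂ)) := by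
        intro a b hab
        have h3 : (x i ^ r ^ (a + 1) : ℝ) = x i ^ r ^ (b + 1) := Complex.ofReal_injective hab
        have h4 : r ^ (a + 1) = r ^ (b + 1) := pow_right_injective₀ (by linarith [hx1 i])
          (hx1 i).ne' h3
        have h5 := Nat.pow_right_injective hr.two_le h4
        omega
      refine (Set.infinite_range_of_injective hinj).mono ?_
      rintro _ ⟨k, rfl⟩
      exact hcon (k + 1) (Nat.succ_pos k)
    obtain ⟨k, hk0, hk⟩ := hk
    have e1 := hh.2 (p ^ i) (r ^ k) hpi (Nat.pow_pos hr.pos)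
    have e2 := hh.2 (r ^ k) (p ^ i) (Nat.pow_pos hr.pos) hpi
    rw [mul_comm, e2] at e1
    have e3 := congrArg (Polynomial.eval ((x i : ℝ) : ℂ)) e1
    rw [Polynomial.eval_mul, Polynomial.eval_mul, Polynomial.eval_comp, Polynomial.eval_comp,
      Polynomial.eval_pow, Polynomial.eval_pow, Polynomial.eval_X] at e3
    have e4 : ((x i : ℝ) : ℂ) ^ p ^ i = 2 := by
      rw [← Complex.ofReal_pow, hx2 i]
      norm_num
    have e5 : (h (r ^ k)).eval (2 : ℂ) = 0 :=
      (root_pow hh hr.pos k 2 hk0).2 ⟨0, hk0, by simpa using h2⟩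
    rw [e4, e5, mul_zero, ← Complex.ofReal_pow] at e3
    rcases mul_eq_zero.1 e3 with e6 | e6
    · obtain ⟨j, -, hj⟩ := (root_pow hh hr.pos k _ hk0).1 e6
      exact ⟨j, by rw [Complex.ofReal_pow]; exact hj⟩
    · exact absurd e6 hk
  choose j hj using key
  have hrne : h r ≠ 0 := (hh.1 _ hr.pos).2 hrS
  refine hrne (Polynomial.eq_zero_of_infinite_isRoot _ ?_)
  have hinj : Function.Injective (fun i : ℕ => (((x i ^ r ^ j i : ℝ)) : ℂ)) := by
    intro a b hab
    have h3 : (x a ^ r ^ j a : ℝ) = x b ^ r ^ j b := Complex.ofReal_injective hab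
    have h4 : (2 : ℝ) ^ (r ^ j a * p ^ b) = 2 ^ (r ^ j b * p ^ a) := by
      have h5 : (x a ^ r ^ j a) ^ (p ^ a * p ^ b) = (2 : ℝ) ^ (r ^ j a * p ^ b) := by
        rw [← pow_mul, ← mul_assoc, mul_comm (r ^ j a), mul_assoc, pow_mul, hx2 a]
      have h6 : (x b ^ r ^ j b) ^ (p ^ a * p ^ b) = (2 : ℝ) ^ (r ^ j b * p ^ a) := by
        rw [← pow_mul, mul_comm (p ^ a), ← mul_assoc, mul_comm (r ^ j b), mul_assoc, pow_mul, hx2 b]
      rw [← h5, ← h6, h3]
    have h7 : r ^ j a * p ^ b = r ^ j b * p ^ a :=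
      pow_right_injective₀ (by norm_num) (by norm_num) h4
    have h8 : ∀ u v : ℕ, (r ^ u * p ^ v).factorization p = v := by
      intro u v
      rw [Nat.factorization_mul (pow_ne_zero _ hr.ne_zero) (pow_ne_zero _ hp.ne_zero),
        Nat.factorization_pow, Nat.factorization_pow, hr.factorization, hp.factorization]
      simp [hpr.symm]
    have h9 := congrArg (fun n => n.factorization p) h7
    simp only [h8] at h9
    exact h9.symm
  refine (Set.infinite_range_of_injective hinj).mono ?_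
  rintro _ ⟨i, rfl⟩
  exact hj i

open Classical in
/-- The polynomial solution with support `S P`, `P ⊆ {p}`, and with the member `a` of index `p`. -/
noncomputable def G (P : Set ℕ) (p : ℕ) (a : ℂ[X]) (n : ℕ) : ℂ[X] :=
  if n ∈ S P then ∏ i ∈ Finset.range (n.factorization p), a.comp (X ^ p ^ i) else 0

theorem eq_pow {P : Set ℕ} {p : ℕ} (hp : p.Prime) (hP : ∀ q ∈ P, q = p) {n : ℕ} (hn : 0 < n)
    (h : n ∈ S P) : n = p ^ n.factorization p := by
  have hP' : ∀ q ∈ P, q.Prime := fun q hq => by rw [hP q hq]; exact hp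
  have h1 := (mem_S hP' hn).1 h
  exact Nat.eq_prime_pow_of_unique_prime_dvd hn.ne' (fun {d} hd hdn => hP d (h1 d hd hdn)) |>.trans
    (by
      congr 1
      have h2 : n = p ^ n.primeFactorsList.length :=
        Nat.eq_prime_pow_of_unique_prime_dvd hn.ne' (fun {d} hd hdn => hP d (h1 d hd hdn))
      have h3 := congrArg (fun x => x.factorization p) h2
      simp only [Nat.factorization_pow, hp.factorization] at h3
      simpa using h3.symm)

theorem G_solution {P : Set ℕ} {p : ℕ} (hp : p.Prime) (hP : ∀ q ∈ P, q = p) {a : ℂ[X]}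
    (ha : a ≠ 0) : PolynomialSolution P (G P p a) := by
  have hP' : ∀ q ∈ P, q.Prime := fun q hq => by rw [hP q hq]; exact hp
  constructor
  · intro n hn
    unfold G
    split_ifs with h
    · simp only [ne_eq, h, iff_true]
      exact Finset.prod_ne_zero_iff.2 fun i _ => comp_ne_zero (Nat.pow_pos hp.pos) ha
    · simp [h]
  · intro m n hm hn
    unfold G
    by_cases h : m * n ∈ S P
    · have h2 := (mem_S_mul hP' hm hn).1 h
      rw [if_pos h, if_pos h2.1, if_pos h2.2, Nat.factorization_mul hm.ne' hn.ne', Finsupp.add_apply,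
        Finset.prod_range_add, Polynomial.prod_comp]
      congr 1
      refine Finset.prod_congr rfl fun i _ => ?_
      have hm2 := eq_pow hp hP hm h2.1
      rw [Polynomial.comp_assoc, Polynomial.X_pow_comp, ← pow_mul]
      congr 2
      rw [pow_add, ← hm2]
    · rw [if_neg h]
      by_cases h2 : m ∈ S P
      · have h3 : n ∉ S P := fun h3 => h ((mem_S_mul hP' hm hn).2 ⟨h2, h3⟩)
        rw [if_neg h3, Polynomial.zero_comp, mul_zero]
      · rw [if_neg h2, zero_mul]

theorem eval_one' (f : RatFunc ℂ) : RatFunc.eval RatFunc.C (RatFunc.X ^ 1) f = f := by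
  conv_lhs => rw [← RatFunc.num_div_denom f]
  rw [eval_div one_pos _ (RatFunc.denom_ne_zero f), pow_one, Polynomial.comp_X, Polynomial.comp_X,
    RatFunc.num_div_denom]

/-- **Main theorem.** For a set `P` of primes, every rational solution with support `S(P)` is a
quotient of two polynomial solutions with support `S(P)` if and only if `P` has at most one
element. -/
theorem result : ∀ P : Set ℕ, (∀ p ∈ P, p.Prime) →
    ((∀ f : ℕ → RatFunc ℂ, RationalSolution P f → ∃ g h : ℕ → ℂ[X],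
      PolynomialSolution P g ∧ PolynomialSolution P h ∧
        ∀ n : ℕ, n ∈ S P → f n = algebraMap ℂ[X] (RatFunc ℂ) (g n) / algebraMap ℂ[X] (RatFunc ℂ) (h n))
      ↔ P.Subsingleton) := by
  intro P hP
  constructor
  · intro H p hpP r hrP
    by_contra hpr
    have hp := hP p hpP
    have hr := hP r hrP
    obtain ⟨g, h, hg, hh, hq⟩ := H (bad P) (bad_solution hP)
    have hpS : ∀ i, p ^ i ∈ S P := fun i => Submonoid.pow_mem _ (Submonoid.subset_closure hpP) i
    have hrS : r ∈ S P := Submonoid.subset_closure hrP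
    have h1 := hq r hrS
    unfold bad at h1
    rw [if_pos hrS, div_eq_div_iff (RatFunc.algebraMap_ne_zero (Polynomial.X_sub_C_ne_zero 2))
      (RatFunc.algebraMap_ne_zero ((hh.1 r hr.pos).2 hrS)), ← map_mul, ← map_mul] at h1
    have h2 := RatFunc.algebraMap_injective ℂ h1
    have h3 := congrArg (Polynomial.eval (2 : ℂ)) h2
    rw [Polynomial.eval_mul, Polynomial.eval_mul] at h3
    simp only [Polynomial.eval_sub, Polynomial.eval_pow, Polynomial.eval_X, Polynomial.eval_C,
      sub_self, mul_zero] at h3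
    have h4 : ((2 : ℂ) ^ r - 2) ≠ 0 := by
      intro h5
      have h6 : ((2 ^ r : ℕ) : ℂ) = ((2 : ℕ) : ℂ) := by
        push_cast
        exact sub_eq_zero.1 h5
      have h7 : 2 ^ r = 2 ^ 1 := by
        rw [pow_one]
        exact_mod_cast h6
      have h8 := Nat.pow_right_injective (le_refl 2) h7
      exact hr.one_lt.ne' h8
    have h5 : (h r).eval (2 : ℂ) = 0 := (mul_eq_zero.1 h3).resolve_left h4
    exact no_root hh hp hr hpr hpS hrS h5
  · intro hsub f hf
    -- a prime `p` with `P ⊆ {p}`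
    obtain ⟨p, hp, hPp⟩ : ∃ p : ℕ, p.Prime ∧ ∀ q ∈ P, q = p := by
      rcases hsub.eq_empty_or_singleton with h | ⟨p, h⟩
      · exact ⟨2, Nat.prime_two, by simp [h]⟩
      · exact ⟨p, hP p (by simp [h]), by simp [h]⟩
    have hone : (1 : ℕ) ∈ S P := Submonoid.one_mem _
    have hf1 : f 1 = 1 := by
      have h1 := hf.2 1 1 one_pos one_pos
      rw [eval_one', mul_one] at h1
      have h2 : f 1 ≠ 0 := (hf.1 1 one_pos).2 hone
      exact (mul_left_cancel₀ h2 (by rw [mul_one]; exact h1)).symm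
    obtain ⟨a, b, ha, hb, hab⟩ : ∃ a b : ℂ[X], a ≠ 0 ∧ b ≠ 0 ∧ (p ∈ S P →
        f p = algebraMap ℂ[X] (RatFunc ℂ) a / algebraMap ℂ[X] (RatFunc ℂ) b) := by
      by_cases h : p ∈ S P
      · refine ⟨(f p).num, (f p).denom, ?_, RatFunc.denom_ne_zero _,
          fun _ => (RatFunc.num_div_denom _).symm⟩
        exact RatFunc.num_ne_zero ((hf.1 p hp.pos).2 h)
      · exact ⟨1, 1, one_ne_zero, one_ne_zero, fun h' => absurd h' h⟩
    refine ⟨G P p a, G P p b, G_solution hp hPp ha, G_solution hp hPp hb, ?_⟩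
    have hpow : ∀ k : ℕ, p ^ k ∈ S P → f (p ^ k) = algebraMap ℂ[X] (RatFunc ℂ) (G P p a (p ^ k)) /
        algebraMap ℂ[X] (RatFunc ℂ) (G P p b (p ^ k)) := by
      intro k
      induction k with
      | zero =>
        intro _
        simp [G, hone, hf1]
      | succ k ih =>
        intro hk
        have hpk : 0 < p ^ k := Nat.pow_pos hp.pos
        rw [pow_succ] at hk ⊢
        obtain ⟨h1, h2⟩ := (mem_S_mul hP hpk hp.pos).1 hk
        have ga := (G_solution hp hPp ha).2 (p ^ k) p hpk hp.pos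
        have gb := (G_solution hp hPp hb).2 (p ^ k) p hpk hp.pos
        have gp : ∀ c : ℂ[X], G P p c p = c := by
          intro c
          simp [G, h2, hp.factorization]
        rw [hf.2 (p ^ k) p hpk hp.pos, ih h1, hab h2, eval_div hpk a hb, ga, gb, gp, gp, map_mul,
          map_mul, div_mul_div_comm]
    intro n hn
    have hn0 : 0 < n := by
      rcases Nat.eq_zero_or_pos n with h0 | h0
      · exfalso
        subst h0
        have : ∀ x ∈ Submonoid.closure P, x ≠ 0 := by
          intro x hx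
          refine Submonoid.closure_induction (motive := fun x _ => x ≠ 0) ?_ ?_ ?_ hx
          · intro y hy
            exact (hP y hy).ne_zero
          · exact one_ne_zero
          · intro y z _ _ h1 h2
            exact mul_ne_zero h1 h2
        exact this 0 hn rfl
      · exact h0
    have h1 := eq_pow hp hPp hn0 hn
    rw [h1]
    exact hpow _ (h1 ▸ hn)

end Pool.Agent.Results.MP_bcdf42_nt.RationalSolutions
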